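import Mathlib

set_option autoImplicit false

open Set Topology Cardinal

namespace Pool.Agent.Results.MP_3bf391_gt.HereditarilyLindelofSigma

universe u v w

/-- `C_p(X, M)`: the continuous functions from `X` to `M` with the topology of pointwise
convergence, that is, the subspace topology inherited from the product `X → M`. -/
abbrev Cp (X : Type u) (M : Type w) [TopologicalSpace X] [TopologicalSpace M] : Type (max u w) :=
  {f : X → M // Continuous f}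

/-- A space is metalindelof if every open cover has a point-countable open refinement. -/
def Metalindelof (Z : Type u) [TopologicalSpace Z] : Prop :=
  ∀ 𝒰 : Set (Set Z), (∀ U ∈ 𝒰, IsOpen U) → ⋃₀ 𝒰 = Set.univ →
    ∃ 𝒱 : Set (Set Z), (∀ V ∈ 𝒱, IsOpen V) ∧ ⋃₀ 𝒱 = Set.univ ∧ (∀ V ∈ 𝒱, ∃ U ∈ 𝒰, V ⊆ U) ∧
      ∀ z : Z, {V ∈ 𝒱 | z ∈ V}.Countable

/-- Lindelof Sigma-spaces: there are a cover `𝒦` by compact sets and a countable family `𝒩` of
sets such that whenever `K ∈ 𝒦` lies in an open set `U`, some `N ∈ 𝒩` satisfies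
`K ⊆ N ⊆ U`. -/
def LindelofSigma (X : Type u) [TopologicalSpace X] : Prop :=
  ∃ 𝒦 𝒩 : Set (Set X), (∀ K ∈ 𝒦, IsCompact K) ∧ ⋃₀ 𝒦 = Set.univ ∧ 𝒩.Countable ∧
    ∀ K ∈ 𝒦, ∀ U : Set X, IsOpen U → K ⊆ U → ∃ N ∈ 𝒩, K ⊆ N ∧ N ⊆ U

section

variable {X : Type u} [TopologicalSpace X] {M : Type w} [TopologicalSpace M]

/-- Basic open sets of `C_p(X, M)` with labels in a countable base of `M`. -/
def B (O : ℕ → Set M) (u : List (X × ℕ)) : Set (Cp X M) :=
  {y | ∀ t ∈ u, y.1 t.1 ∈ O t.2}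

theorem continuous_eval (x : X) : Continuous fun y : Cp X M => y.1 x :=
  (continuous_apply x).comp continuous_subtype_val

theorem isOpen_B {O : ℕ → Set M} (hO : ∀ n, IsOpen (O n)) (u : List (X × ℕ)) :
    IsOpen (B (X := X) O u) := by
  have h : B (X := X) O u = ⋂ t ∈ {t | t ∈ u}, {y : Cp X M | y.1 t.1 ∈ O t.2} := by
    ext y; simp [B]
  rw [h]
  refine Set.Finite.isOpen_biInter (List.finite_toSet u) ?_
  intro t _
  exact (hO t.2).preimage (continuous_eval t.1)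

theorem exists_B {O : ℕ → Set M} (hO : TopologicalSpace.IsTopologicalBasis (range O)) {W : Set (Cp X M)}
    (hW : IsOpen W) {f : Cp X M} (hf : f ∈ W) :
    ∃ u : List (X × ℕ), f ∈ B O u ∧ B O u ⊆ W := by
  obtain ⟨W', hW', rfl⟩ := isOpen_induced_iff.1 hW
  obtain ⟨I, v, hv, hI⟩ := isOpen_pi_iff.1 hW' f.1 hf
  have h1 : ∀ a : X, ∃ n : ℕ, a ∈ I → (f.1 a ∈ O n ∧ O n ⊆ v a) := by
    intro a
    by_cases ha : a ∈ I
    · obtain ⟨ho, hm⟩ := hv a ha
      obtain ⟨_, ⟨n, rfl⟩, h2, h3⟩ := hO.exists_subset_of_mem_open hm ho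
      exact ⟨n, fun _ => ⟨h2, h3⟩⟩
    · exact ⟨0, fun h => absurd h ha⟩
  choose q hq using h1
  refine ⟨I.toList.map fun a => (a, q a), ?_, ?_⟩
  · intro t ht
    obtain ⟨a, ha, rfl⟩ := List.mem_map.1 ht
    exact (hq a (Finset.mem_toList.1 ha)).1
  · intro y hy
    apply hI
    intro a ha
    have h2 := hy (a, q a) (List.mem_map.2 ⟨a, Finset.mem_toList.2 (Finset.mem_coe.1 ha), rfl⟩)
    exact (hq a (Finset.mem_coe.1 ha)).2 h2

/-- Boxes of `X`: a member of the network cut by finitely many functions of `s` with rational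
bounds. -/
def boxes (N : ℕ → Set X) (s : Set (Cp X ℝ)) : Set (Set X) :=
  {W | ∃ (k : ℕ) (l : List (Cp X ℝ × ℚ × ℚ)), (∀ e ∈ l, e.1 ∈ s) ∧
    W = {x | x ∈ N k ∧ ∀ e ∈ l, (e.2.1 : ℝ) < e.1.1 x ∧ e.1.1 x < (e.2.2 : ℝ)}}

/-- A list of points with labels matches a list of boxes with labels. -/
def Match (u : List (X × ℕ)) (c : List (Set X × ℕ)) : Prop :=
  List.Forall₂ (fun t e => t.1 ∈ e.1 ∧ t.2 = e.2) u c

open Classical in
/-- Choice of a matching member of `𝒰`. -/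
noncomputable def sel (𝒰 : Set (List (X × ℕ))) (c : List (Set X × ℕ)) :
    List (X × ℕ) :=
  if h : ∃ u ∈ 𝒰, Match u c then h.choose else []

omit [TopologicalSpace X] in
theorem sel_spec {𝒰 : Set (List (X × ℕ))} {c : List (Set X × ℕ)}
    (h : ∃ u ∈ 𝒰, Match u c) : sel 𝒰 c ∈ 𝒰 ∧ Match (sel 𝒰 c) c := by
  unfold sel
  rw [dif_pos h]
  exact h.choose_spec

/-- The chosen members of `𝒰` for the boxes coming from `s`. -/
def Psi (N : ℕ → Set X) (𝒰 : Set (List (X × ℕ))) (s : Set (Cp X ℝ)) : Set (List (X × ℕ)) :=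
  {u | ∃ c : List (Set X × ℕ), (∀ e ∈ c, e.1 ∈ boxes N s) ∧ (∃ u' ∈ 𝒰, Match u' c) ∧
    u = sel 𝒰 c}

variable {N : ℕ → Set X}

theorem Psi_sub (𝒰 : Set (List (X × ℕ))) (s : Set (Cp X ℝ)) : Psi N 𝒰 s ⊆ 𝒰 := by
  rintro u ⟨c, -, h, rfl⟩
  exact (sel_spec h).1

theorem boxes_mono {s t : Set (Cp X ℝ)} (h : s ⊆ t) : boxes N s ⊆ boxes N t := by
  rintro W ⟨k, l, hl, rfl⟩
  exact ⟨k, l, fun e he => h (hl e he), rfl⟩

theorem Psi_mono (𝒰 : Set (List (X × ℕ))) {s t : Set (Cp X ℝ)} (h : s ⊆ t) :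
    Psi N 𝒰 s ⊆ Psi N 𝒰 t := by
  rintro u ⟨c, hc, h', rfl⟩
  exact ⟨c, fun e he => boxes_mono h (hc e he), h', rfl⟩

theorem boxes_fin {s : Set (Cp X ℝ)} {W : Set X} (h : W ∈ boxes N s) :
    ∃ t : Finset (Cp X ℝ), (t : Set (Cp X ℝ)) ⊆ s ∧ W ∈ boxes N (t : Set (Cp X ℝ)) := by
  classical
  obtain ⟨k, l, hl, rfl⟩ := h
  refine ⟨(l.map Prod.fst).toFinset, ?_, k, l, ?_, rfl⟩
  · intro g hg
    obtain ⟨e, he, rfl⟩ := List.mem_map.1 (List.mem_toFinset.1 (Finset.mem_coe.1 hg))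
    exact hl e he
  · intro e he
    exact Finset.mem_coe.2 (List.mem_toFinset.2 (List.mem_map.2 ⟨e, he, rfl⟩))

theorem Psi_fin {𝒰 : Set (List (X × ℕ))} {s : Set (Cp X ℝ)} {u : List (X × ℕ)}
    (h : u ∈ Psi N 𝒰 s) :
    ∃ t : Finset (Cp X ℝ), (t : Set (Cp X ℝ)) ⊆ s ∧ u ∈ Psi N 𝒰 (t : Set (Cp X ℝ)) := by
  classical
  obtain ⟨c, hc, h', rfl⟩ := h
  have key : ∀ c : List (Set X × ℕ), (∀ e ∈ c, e.1 ∈ boxes N s) →
      ∃ t : Finset (Cp X ℝ), (t : Set (Cp X ℝ)) ⊆ s ∧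
        ∀ e ∈ c, e.1 ∈ boxes N (t : Set (Cp X ℝ)) := by
    intro c
    induction c with
    | nil => intro _; exact ⟨∅, by simp, by simp⟩
    | cons a c ih =>
      intro hc
      obtain ⟨t, ht, ht'⟩ := ih fun e he => hc e (List.mem_cons_of_mem _ he)
      obtain ⟨t2, ht2, ht2'⟩ := boxes_fin (hc a List.mem_cons_self)
      refine ⟨t ∪ t2, ?_, ?_⟩
      · intro g hg
        rw [Finset.coe_union] at hg
        rcases hg with hg | hg
        · exact ht hg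
        · exact ht2 hg
      · intro e he
        rcases List.mem_cons.1 he with rfl | he
        · exact boxes_mono (by rw [Finset.coe_union]; exact subset_union_right) ht2'
        · exact boxes_mono (by rw [Finset.coe_union]; exact subset_union_left) (ht' e he)
  obtain ⟨t, ht, ht'⟩ := key c hc
  exact ⟨t, ht, c, ht', h', rfl⟩

theorem mk_boxes_le (s : Set (Cp X ℝ)) : #(boxes N s) ≤ max ℵ₀ #s := by
  have hsurj : ∃ F : ℕ × List (s × ℚ × ℚ) → boxes N s, Function.Surjective F := by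
    refine ⟨fun l => ⟨{x | x ∈ N l.1 ∧
      ∀ e ∈ l.2, (e.2.1 : ℝ) < e.1.1.1 x ∧ e.1.1.1 x < (e.2.2 : ℝ)},
      l.1, l.2.map (fun e => (e.1.1, e.2)), ?_, ?_⟩, ?_⟩
    · intro e he
      obtain ⟨a, _, rfl⟩ := List.mem_map.1 he
      exact a.1.2
    · ext x
      constructor
      · rintro ⟨h0, h⟩
        refine ⟨h0, fun e he => ?_⟩
        obtain ⟨a, ha, rfl⟩ := List.mem_map.1 he
        exact h a ha
      · rintro ⟨h0, h⟩
        exact ⟨h0, fun e he => h (e.1.1, e.2) (List.mem_map.2 ⟨e, he, rfl⟩)⟩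
    · rintro ⟨W, k, l, hl, rfl⟩
      refine ⟨(k, l.attach.map fun e => (⟨e.1.1, hl e.1 e.2⟩, e.1.2)), ?_⟩
      apply Subtype.ext
      ext x
      constructor
      · rintro ⟨h0, h⟩
        exact ⟨h0, fun e he =>
          h (⟨e.1, hl e he⟩, e.2) (List.mem_map.2 ⟨⟨e, he⟩, List.mem_attach _ _, rfl⟩)⟩
      · rintro ⟨h0, h⟩
        refine ⟨h0, fun e he => ?_⟩
        obtain ⟨a, _, rfl⟩ := List.mem_map.1 he
        exact h a.1 a.2
  obtain ⟨F, hF⟩ := hsurj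
  have h2 : #(List (s × ℚ × ℚ)) ≤ max ℵ₀ #s := by
    refine (mk_list_le_max _).trans (max_le (le_max_left _ _) ?_)
    have h1 : #(ℚ × ℚ) = ℵ₀ := mk_eq_aleph0 _
    rw [mk_prod, h1, lift_uzero, lift_aleph0]
    exact (mul_le_max_of_aleph0_le_right le_rfl).trans (by rw [max_comm])
  calc #(boxes N s) ≤ #(ℕ × List (s × ℚ × ℚ)) := mk_le_of_surjective hF
    _ = ℵ₀ * #(List (s × ℚ × ℚ)) := by
        rw [mk_prod, mk_nat, lift_aleph0, lift_uzero]
    _ ≤ ℵ₀ * max ℵ₀ #s := mul_le_mul' le_rfl h2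
    _ = max ℵ₀ #s := aleph0_mul_eq (le_max_left _ _)

/-- The union of `A` with the functions `z p` for the points `p` of the chosen members. -/
def step (N : ℕ → Set X) (𝒰 : Set (List (X × ℕ))) (z : X → Cp X ℝ) (A : Set (Cp X ℝ)) :
    Set (Cp X ℝ) :=
  A ∪ {g | ∃ u ∈ Psi N 𝒰 A, ∃ t ∈ u, g = z t.1}

/-- Closedness of a family of functions under the choice. -/
def Closed (N : ℕ → Set X) (𝒰 : Set (List (X × ℕ))) (z : X → Cp X ℝ) (G : Set (Cp X ℝ)) : Prop :=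
  ∀ u ∈ Psi N 𝒰 G, ∀ t ∈ u, z t.1 ∈ G

/-- The closure. -/
def clo (N : ℕ → Set X) (𝒰 : Set (List (X × ℕ))) (z : X → Cp X ℝ) (A : Set (Cp X ℝ)) :
    Set (Cp X ℝ) :=
  ⋃ n : ℕ, (step N 𝒰 z)^[n] A

theorem mk_Psi_le (𝒰 : Set (List (X × ℕ))) (s : Set (Cp X ℝ)) :
    #(Psi N 𝒰 s) ≤ max ℵ₀ #s := by
  have h1 : Psi N 𝒰 s ⊆ range fun l : List (boxes N s × ℕ) =>
      sel 𝒰 (l.map fun e => ((e.1 : Set X), e.2)) := by
    rintro u ⟨c, hc, -, rfl⟩
    refine ⟨c.attach.map fun e => (⟨e.1.1, hc e.1 e.2⟩, e.1.2), ?_⟩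
    simp only [List.map_map]
    congr 1
    conv_rhs => rw [← List.attach_map_subtype_val c]
    rfl
  calc #(Psi N 𝒰 s) ≤ #(range fun l : List (boxes N s × ℕ) =>
      sel 𝒰 (l.map fun e => ((e.1 : Set X), e.2))) := mk_le_mk_of_subset h1
    _ ≤ #(List (boxes N s × ℕ)) := mk_range_le
    _ ≤ max ℵ₀ #(boxes N s × ℕ) := mk_list_le_max _
    _ ≤ max ℵ₀ #(boxes N s) := by
        apply max_le (le_max_left _ _)
        rw [mk_prod, mk_nat, lift_uzero, lift_aleph0]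
        exact (mul_le_max_of_aleph0_le_right le_rfl).trans (by rw [max_comm])
    _ ≤ max ℵ₀ #s := max_le (le_max_left _ _) (mk_boxes_le s)

theorem mk_step_le (𝒰 : Set (List (X × ℕ))) (z : X → Cp X ℝ) (A : Set (Cp X ℝ)) :
    #(step N 𝒰 z A) ≤ max ℵ₀ #A := by
  have h1 : {g | ∃ u ∈ Psi N 𝒰 A, ∃ t ∈ u, g = z t.1} ⊆
      ⋃ u : Psi N 𝒰 A, {g | ∃ t ∈ u.1, g = z t.1} := by
    rintro g ⟨u, hu, t, ht, rfl⟩
    exact mem_iUnion.2 ⟨⟨u, hu⟩, t, ht, rfl⟩
  have h2 : ∀ u : Psi N 𝒰 A, #({g | ∃ t ∈ u.1, g = z t.1} : Set (Cp X ℝ)) ≤ ℵ₀ := by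
    intro u
    have : ({g | ∃ t ∈ u.1, g = z t.1} : Set (Cp X ℝ)).Finite := by
      have : ({g | ∃ t ∈ u.1, g = z t.1} : Set (Cp X ℝ)) = (fun t => z t.1) '' {t | t ∈ u.1} := by
        ext g
        constructor
        · rintro ⟨t, ht, rfl⟩
          exact ⟨t, ht, rfl⟩
        · rintro ⟨t, ht, rfl⟩
          exact ⟨t, ht, rfl⟩
      rw [this]
      exact (List.finite_toSet _).image _
    exact this.countable.le_aleph0
  have h3 : #({g | ∃ u ∈ Psi N 𝒰 A, ∃ t ∈ u, g = z t.1} : Set (Cp X ℝ)) ≤ max ℵ₀ #A := by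
    calc _ ≤ #(⋃ u : Psi N 𝒰 A, ({g | ∃ t ∈ u.1, g = z t.1} : Set (Cp X ℝ))) :=
          mk_le_mk_of_subset h1
      _ ≤ #(Psi N 𝒰 A) * ⨆ u : Psi N 𝒰 A, #({g | ∃ t ∈ u.1, g = z t.1} : Set (Cp X ℝ)) :=
          mk_iUnion_le _
      _ ≤ max ℵ₀ #A * ℵ₀ := mul_le_mul' (mk_Psi_le 𝒰 A) (ciSup_le' h2)
      _ = max ℵ₀ #A := mul_aleph0_eq (le_max_left _ _)
  calc #(step N 𝒰 z A) ≤ #A + #({g | ∃ u ∈ Psi N 𝒰 A, ∃ t ∈ u, g = z t.1} : Set (Cp X ℝ)) :=
        mk_union_le _ _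
    _ ≤ max ℵ₀ #A + max ℵ₀ #A := add_le_add (le_max_right _ _) h3
    _ = max ℵ₀ #A := add_eq_self (le_max_left _ _)

theorem subset_step (𝒰 : Set (List (X × ℕ))) (z : X → Cp X ℝ) (A : Set (Cp X ℝ)) :
    A ⊆ step N 𝒰 z A := subset_union_left

theorem step_iter_mono (𝒰 : Set (List (X × ℕ))) (z : X → Cp X ℝ) (A : Set (Cp X ℝ)) :
    Monotone fun n : ℕ => (step N 𝒰 z)^[n] A := by
  apply monotone_nat_of_le_succ
  intro n
  rw [Function.iterate_succ_apply']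
  exact subset_step _ _ _

theorem subset_clo (𝒰 : Set (List (X × ℕ))) (z : X → Cp X ℝ) (A : Set (Cp X ℝ)) :
    A ⊆ clo N 𝒰 z A := subset_iUnion (fun n : ℕ => (step N 𝒰 z)^[n] A) 0

theorem mk_clo_le (𝒰 : Set (List (X × ℕ))) (z : X → Cp X ℝ) (A : Set (Cp X ℝ)) :
    #(clo N 𝒰 z A) ≤ max ℵ₀ #A := by
  have h : ∀ n : ℕ, #((step N 𝒰 z)^[n] A) ≤ max ℵ₀ #A := by
    intro n
    induction n with
    | zero => exact le_max_right _ _
    | succ n ih =>
      rw [Function.iterate_succ_apply']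
      exact (mk_step_le 𝒰 z _).trans (max_le (le_max_left _ _) ih)
  have h2 := mk_iUnion_le_lift (fun n : ℕ => (step N 𝒰 z)^[n] A)
  rw [lift_uzero, mk_nat, lift_aleph0] at h2
  refine h2.trans ?_
  calc ℵ₀ * (⨆ i : ℕ, lift.{0} #((step N 𝒰 z)^[i] A)) ≤ max ℵ₀ #A * max ℵ₀ #A := by
        apply mul_le_mul' (le_max_left _ _)
        apply ciSup_le'
        intro i
        rw [lift_uzero]
        exact h i
    _ = max ℵ₀ #A := mul_eq_self (le_max_left _ _)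

theorem clo_closed (𝒰 : Set (List (X × ℕ))) (z : X → Cp X ℝ) (A : Set (Cp X ℝ)) :
    Closed N 𝒰 z (clo N 𝒰 z A) := by
  intro u hu t ht
  obtain ⟨s, hs, hu'⟩ := Psi_fin hu
  obtain ⟨n, hn⟩ := (step_iter_mono 𝒰 z A).directed_le.exists_mem_subset_of_finset_subset_biUnion
    (by simpa [clo] using hs)
  refine mem_iUnion.2 ⟨n + 1, ?_⟩
  rw [Function.iterate_succ_apply']
  exact Or.inr ⟨u, Psi_mono 𝒰 hn hu', t, ht, rfl⟩

theorem clo_subset {𝒰 : Set (List (X × ℕ))} {z : X → Cp X ℝ} {A G : Set (Cp X ℝ)} (h : A ⊆ G)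
    (hG : Closed N 𝒰 z G) : clo N 𝒰 z A ⊆ G := by
  refine iUnion_subset fun n => ?_
  induction n with
  | zero => exact h
  | succ n ih =>
    rw [Function.iterate_succ_apply']
    refine union_subset ih ?_
    rintro g ⟨u, hu, t, ht, rfl⟩
    exact hG u (Psi_mono 𝒰 ih hu) t ht

theorem clo_mono (𝒰 : Set (List (X × ℕ))) (z : X → Cp X ℝ) {A A' : Set (Cp X ℝ)} (h : A ⊆ A') :
    clo N 𝒰 z A ⊆ clo N 𝒰 z A' :=
  clo_subset (h.trans (subset_clo _ _ _)) (clo_closed _ _ _)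

/-- Compactness: if `f` is constant on the part of the `G`-fibre of `p` in the compact set `K p`,
then a box from `G` around `p` is mapped by `f` into a given neighbourhood of `f p`. -/
theorem exists_box {K : X → Set X} (hK : ∀ x, IsCompact (K x)) (hKx : ∀ x, x ∈ K x)
    (hN : ∀ x, ∀ U : Set X, IsOpen U → K x ⊆ U → ∃ k, K x ⊆ N k ∧ N k ⊆ U)
    {G : Set (Cp X ℝ)} {p : X} {f : Cp X M} {V : Set M} (hV : IsOpen V) (hp : f.1 p ∈ V)
    (h : ∀ x ∈ K p, (∀ g ∈ G, g.1 x = g.1 p) → f.1 x = f.1 p) :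
    ∃ W ∈ boxes N G, p ∈ W ∧ ∀ x ∈ W, f.1 x ∈ V := by
  classical
  have hC : IsCompact (K p ∩ {x | f.1 x ∉ V}) :=
    (hK p).inter_right ((hV.preimage f.2).isClosed_compl)
  have h1 : ∀ x ∈ K p ∩ {x | f.1 x ∉ V}, ∃ e : Cp X ℝ × ℚ × ℚ, e.1 ∈ G ∧
      (e.2.1 : ℝ) < e.1.1 p ∧ e.1.1 p < (e.2.2 : ℝ) ∧
      (e.1.1 x < (e.2.1 : ℝ) ∨ (e.2.2 : ℝ) < e.1.1 x) := by
    rintro x ⟨hxK, hx⟩
    have h2 : ∃ g ∈ G, g.1 x ≠ g.1 p := by
      by_contra hcon
      push Not at hcon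
      have h3 := h x hxK hcon
      apply hx
      rw [h3]
      exact hp
    obtain ⟨g, hg, hne⟩ := h2
    rcases lt_or_gt_of_ne hne with hlt | hlt
    · obtain ⟨q, hq1, hq2⟩ := exists_rat_btwn hlt
      obtain ⟨q', hq'⟩ := exists_rat_gt (g.1 p)
      exact ⟨(g, q, q'), hg, hq2, hq', Or.inl hq1⟩
    · obtain ⟨q, hq1, hq2⟩ := exists_rat_btwn hlt
      obtain ⟨q', hq'⟩ := exists_rat_lt (g.1 p)
      exact ⟨(g, q', q), hg, hq', hq1, Or.inr hq2⟩
  have hne : Nonempty (Cp X ℝ) := ⟨⟨fun _ => 0, continuous_const⟩⟩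
  choose! e he1 he2 he3 he4 using h1
  obtain ⟨t, ht, htc⟩ := hC.elim_nhds_subcover
    (fun x => {y | (e x).1.1 y < ((e x).2.1 : ℝ) ∨ ((e x).2.2 : ℝ) < (e x).1.1 y}) (by
      intro x hx
      apply IsOpen.mem_nhds
      · exact (isOpen_lt (e x).1.2 continuous_const).union (isOpen_lt continuous_const (e x).1.2)
      · exact he4 x hx)
  have hopen : IsOpen ({x | f.1 x ∈ V} ∪
      ⋃ x ∈ t, {y | (e x).1.1 y < ((e x).2.1 : ℝ) ∨ ((e x).2.2 : ℝ) < (e x).1.1 y}) :=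
    (hV.preimage f.2).union (isOpen_biUnion fun x _ =>
      (isOpen_lt (e x).1.2 continuous_const).union (isOpen_lt continuous_const (e x).1.2))
  obtain ⟨k, hk1, hk2⟩ := hN p _ hopen (by
    intro x hx
    by_cases hxV : f.1 x ∈ V
    · exact Or.inl hxV
    · exact Or.inr (htc ⟨hx, hxV⟩))
  refine ⟨{x | x ∈ N k ∧ ∀ d ∈ t.toList.map e, (d.2.1 : ℝ) < d.1.1 x ∧ d.1.1 x < (d.2.2 : ℝ)},
    ⟨k, t.toList.map e, ?_, rfl⟩, ⟨hk1 (hKx p), ?_⟩, ?_⟩
  · intro d hd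
    obtain ⟨x, hx, rfl⟩ := List.mem_map.1 hd
    exact he1 x (ht x (Finset.mem_toList.1 hx))
  · intro d hd
    obtain ⟨x, hx, rfl⟩ := List.mem_map.1 hd
    exact ⟨he2 x (ht x (Finset.mem_toList.1 hx)), he3 x (ht x (Finset.mem_toList.1 hx))⟩
  · rintro x ⟨hxN, hx⟩
    rcases hk2 hxN with h5 | h5
    · exact h5
    · exfalso
      obtain ⟨w, hw, hxw⟩ := mem_iUnion₂.1 h5
      have := hx (e w) (List.mem_map.2 ⟨w, Finset.mem_toList.2 hw, rfl⟩)
      rcases hxw with h5 | h5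
      · exact absurd this.1 (not_lt.2 h5.le)
      · exact absurd this.2 (not_lt.2 h5.le)

omit [TopologicalSpace X] in
theorem Match.exists_of_mem {u : List (X × ℕ)} {c : List (Set X × ℕ)} (h : Match u c) :
    ∀ t ∈ u, ∃ e ∈ c, t.1 ∈ e.1 ∧ t.2 = e.2 := by
  induction h with
  | nil => simp
  | cons hab _ ih =>
    intro t ht
    rcases List.mem_cons.1 ht with rfl | ht
    · exact ⟨_, List.mem_cons_self, hab⟩
    · obtain ⟨e, he, h'⟩ := ih t ht
      exact ⟨e, List.mem_cons_of_mem _ he, h'⟩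

/-- Reflection: a function in `B u`, `u ∈ 𝒰`, that lies in no `B u'` with `u'` chosen from `G`
is not constant on the `G`-fibre of some point of `u` in its compact set. -/
theorem reflection {K : X → Set X} (hK : ∀ x, IsCompact (K x)) (hKx : ∀ x, x ∈ K x)
    (hN : ∀ x, ∀ U : Set X, IsOpen U → K x ⊆ U → ∃ k, K x ⊆ N k ∧ N k ⊆ U)
    {O : ℕ → Set M} (hO : ∀ n, IsOpen (O n)) {𝒰 : Set (List (X × ℕ))} {G : Set (Cp X ℝ)}
    {u : List (X × ℕ)} (hu : u ∈ 𝒰) {f : Cp X M} (hf : f ∈ B O u)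
    (hG : ∀ u' ∈ Psi N 𝒰 G, f ∉ B O u') :
    ∃ t ∈ u, ∃ x ∈ K t.1, (∀ g ∈ G, g.1 x = g.1 t.1) ∧ f.1 x ≠ f.1 t.1 := by
  by_contra hcon
  push Not at hcon
  have h1 : ∀ t ∈ u, ∃ W ∈ boxes N G, t.1 ∈ W ∧ ∀ x ∈ W, f.1 x ∈ O t.2 :=
    fun t ht => exists_box hK hKx hN (hO t.2) (hf t ht) (hcon t ht)
  choose! W hW1 hW2 hW3 using h1
  have hm : Match u (u.map fun t => (W t, t.2)) := by
    unfold Match
    rw [List.forall₂_map_right_iff, List.forall₂_same]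
    exact fun t ht => ⟨hW2 t ht, rfl⟩
  have hex : ∃ u' ∈ 𝒰, Match u' (u.map fun t => (W t, t.2)) := ⟨u, hu, hm⟩
  obtain ⟨-, hm'⟩ := sel_spec hex
  refine hG (sel 𝒰 (u.map fun t => (W t, t.2))) ⟨_, ?_, hex, rfl⟩ ?_
  · intro e he
    obtain ⟨t, ht, rfl⟩ := List.mem_map.1 he
    exact hW1 t ht
  · intro t' ht'
    obtain ⟨e, he, h3, h4⟩ := hm'.exists_of_mem t' ht'
    obtain ⟨t, ht, rfl⟩ := List.mem_map.1 he
    have h5 := hW3 t ht t'.1 h3
    rw [h4]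
    exact h5

end

section

/-- In a completely regular hereditarily Lindelof `T₁`-space every point is the zero set of a
continuous function. -/
theorem exists_zero {H : Type v} [TopologicalSpace H] [T35Space H] [HereditarilyLindelofSpace H]
    (p : H) : ∃ h : H → ℝ, Continuous h ∧ ∀ x, h x = 0 ↔ x = p := by
  classical
  have h1 : ∀ x : H, ∃ f : H → ℝ, Continuous f ∧ f p = 0 ∧ (∀ y, 0 ≤ f y) ∧ (∀ y, f y ≤ 1) ∧
      (x ≠ p → f x = 1) := by
    intro x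
    by_cases hx : x = p
    · exact ⟨fun _ => 0, continuous_const, rfl, fun _ => le_rfl, fun _ => zero_le_one,
        fun h => absurd hx h⟩
    · obtain ⟨f, hf, hf0, hf1⟩ := CompletelyRegularSpace.completely_regular p {x}
        isClosed_singleton (fun h => hx (mem_singleton_iff.1 h).symm)
      refine ⟨fun y => (f y : ℝ), continuous_subtype_val.comp hf, ?_, fun y => (f y).2.1,
        fun y => (f y).2.2, fun _ => ?_⟩
      · show ((f p : ℝ)) = 0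
        rw [hf0]; rfl
      · show ((f x : ℝ)) = 1
        rw [hf1 (mem_singleton x)]; rfl
  choose f hf hf0 hf2 hf3 hf1 using h1
  obtain ⟨C, hC, hCe⟩ := eq_open_union_countable (fun x : H => {y | 0 < f x y})
    (fun x => isOpen_lt continuous_const (hf x))
  have : Countable C := hC.to_subtype
  let _ : Encodable C := Encodable.ofCountable C
  have hb : ∀ (i : C) (y : H), ‖(1 / 2 : ℝ) ^ Encodable.encode i * f i.1 y‖ ≤
      (1 / 2 : ℝ) ^ Encodable.encode i := by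
    intro i y
    rw [Real.norm_of_nonneg (mul_nonneg (by positivity) (hf2 _ _))]
    exact mul_le_of_le_one_right (by positivity) (hf3 _ _)
  refine ⟨fun y => ∑' i : C, (1 / 2 : ℝ) ^ Encodable.encode i * f i.1 y, ?_, ?_⟩
  · exact continuous_tsum (fun i => continuous_const.mul (hf i.1)) summable_geometric_two_encode hb
  · intro x
    constructor
    · intro h
      by_contra hx
      have h2 : x ∈ ⋃ i, {y | 0 < f i y} :=
        mem_iUnion.2 ⟨x, by show 0 < f x x; rw [hf1 x hx]; exact one_pos⟩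
      rw [← hCe] at h2
      obtain ⟨i, hi, hxi⟩ := mem_iUnion₂.1 h2
      have h3 : Summable fun i : C => (1 / 2 : ℝ) ^ Encodable.encode i * f i.1 x :=
        Summable.of_norm_bounded summable_geometric_two_encode (fun i => hb i x)
      have h4 : 0 < ∑' i : C, (1 / 2 : ℝ) ^ Encodable.encode i * f i.1 x :=
        h3.tsum_pos (fun j => mul_nonneg (by positivity) (hf2 _ _)) ⟨i, hi⟩
          (mul_pos (by positivity) hxi)
      exact absurd h h4.ne'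
    · rintro rfl
      simp [hf0]

/-- Right-separated well-ordered families of points of a hereditarily Lindelof space are
countable. -/
theorem right_separated {H : Type v} [TopologicalSpace H] [HereditarilyLindelofSpace H]
    {ι : Type*} [LinearOrder ι] [WellFoundedLT ι] (T : Set ι) (h : ι → H) (U : ι → Set H)
    (hU : ∀ a ∈ T, IsOpen (U a)) (hm : ∀ a ∈ T, h a ∈ U a)
    (hs : ∀ a ∈ T, ∀ b ∈ T, a < b → h b ∉ U a) : T.Countable := by
  classical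
  have h2 : {a ∈ T | {b ∈ T | b < a}.Countable}.Countable := by
    obtain ⟨C, hC, hCc⟩ := eq_open_union_countable
      (fun a : {a ∈ T | {b ∈ T | b < a}.Countable} => U a.1)
      (fun a => hU a.1 a.2.1)
    have h3 : {a ∈ T | {b ∈ T | b < a}.Countable} ⊆
        ⋃ a ∈ C, ({b ∈ T | b < a.1} ∪ {a.1}) := by
      intro b hb
      have h4 : h b ∈ ⋃ i : {a ∈ T | {b ∈ T | b < a}.Countable}, U i.1 :=
        mem_iUnion.2 ⟨⟨b, hb⟩, hm b hb.1⟩
      rw [← hCc] at h4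
      obtain ⟨a, haC, ha⟩ := mem_iUnion₂.1 h4
      refine mem_iUnion₂.2 ⟨a, haC, ?_⟩
      rcases lt_trichotomy b a.1 with h | h | h
      · exact Or.inl ⟨hb.1, h⟩
      · exact Or.inr h
      · exact absurd ha (hs a.1 a.2.1 b hb.1 h)
    refine (hC.biUnion fun a _ => ?_).mono h3
    exact (a.2.2).union (countable_singleton _)
  by_contra hT
  have h3 : (T \ {a ∈ T | {b ∈ T | b < a}.Countable}).Nonempty := by
    by_contra h4
    rw [not_nonempty_iff_eq_empty, sdiff_eq_empty] at h4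
    exact hT (h2.mono h4)
  obtain ⟨a, ha, hmin⟩ := WellFounded.has_min (wellFounded_lt (α := ι)) _ h3
  apply ha.2
  refine ⟨ha.1, h2.mono ?_⟩
  intro b hb
  by_contra h5
  exact hmin b ⟨hb.1, h5⟩ hb.2

end


section

variable {X : Type u} [TopologicalSpace X] {H : Type v} [TopologicalSpace H]
  {M : Type w} [TopologicalSpace M] {N : ℕ → Set X}

/-- A continuous function to a metrizable space depends on `π` and on countably many members of a
family `A` which together with `π` separates the points of a Lindelof Sigma-space. -/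
theorem exists_countable_dep [T2Space H] [TopologicalSpace.MetrizableSpace M] {K : X → Set X}
    (hK : ∀ x, IsCompact (K x)) (hKx : ∀ x, x ∈ K x)
    (hN : ∀ x, ∀ U : Set X, IsOpen U → K x ⊆ U → ∃ k, K x ⊆ N k ∧ N k ⊆ U)
    {π : X → H} (hπ : Continuous π) {A : Set (Cp X ℝ)}
    (hsep : ∀ x x', π x = π x' → (∀ g ∈ A, g.1 x = g.1 x') → x = x') (y : Cp X M) :
    ∃ A' : Set (Cp X ℝ), A' ⊆ A ∧ A'.Countable ∧
      ∀ x x', π x = π x' → (∀ g ∈ A', g.1 x = g.1 x') → y.1 x = y.1 x' := by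
  classical
  let _ : MetricSpace M := TopologicalSpace.metrizableSpaceMetric M
  let E : ℕ → Set (Cp X ℝ) → Set (X × X) := fun n F =>
    {q | dist (y.1 q.1) (y.1 q.2) < 1 / ((n : ℝ) + 1)} ∪
      ({q | π q.1 ≠ π q.2} ∪ ⋃ g ∈ F, {q : X × X | g.1 q.1 ≠ g.1 q.2})
  have hopen : ∀ n F, IsOpen (E n F) := by
    intro n F
    refine IsOpen.union ?_ (IsOpen.union ?_ ?_)
    · exact isOpen_lt ((y.2.comp continuous_fst).dist (y.2.comp continuous_snd)) continuous_const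
    · exact isOpen_ne_fun (hπ.comp continuous_fst) (hπ.comp continuous_snd)
    · exact isOpen_biUnion fun g _ =>
        isOpen_ne_fun (g.2.comp continuous_fst) (g.2.comp continuous_snd)
  have key : ∀ (n : ℕ) (x x' : X), ∃ F : Finset (Cp X ℝ), (F : Set (Cp X ℝ)) ⊆ A ∧
      ∃ k k' : ℕ, x ∈ N k ∧ x' ∈ N k' ∧ N k ×ˢ N k' ⊆ E n F := by
    intro n x x'
    have hc : IsCompact (K x ×ˢ K x') := (hK x).prod (hK x')
    have hcov : K x ×ˢ K x' ⊆ ⋃ F : {F : Finset (Cp X ℝ) // (F : Set (Cp X ℝ)) ⊆ A},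
        E n (F.1 : Set (Cp X ℝ)) := by
      rintro ⟨a, b⟩ -
      by_cases h1 : π a = π b
      · by_cases h2 : ∀ g ∈ A, g.1 a = g.1 b
        · have h3 := hsep a b h1 h2
          subst h3
          refine mem_iUnion.2 ⟨⟨∅, by simp⟩, Or.inl ?_⟩
          show dist (y.1 a) (y.1 a) < 1 / ((n : ℝ) + 1)
          rw [dist_self]
          positivity
        · push Not at h2
          obtain ⟨g, hg, hne⟩ := h2
          refine mem_iUnion.2 ⟨⟨{g}, by simpa using hg⟩, Or.inr (Or.inr ?_)⟩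
          exact mem_iUnion₂.2 ⟨g, by simp, hne⟩
      · exact mem_iUnion.2 ⟨⟨∅, by simp⟩, Or.inr (Or.inl h1)⟩
    have : Nonempty {F : Finset (Cp X ℝ) // (F : Set (Cp X ℝ)) ⊆ A} := ⟨⟨∅, by simp⟩⟩
    obtain ⟨F, hF⟩ := hc.elim_directed_cover
      (fun F : {F : Finset (Cp X ℝ) // (F : Set (Cp X ℝ)) ⊆ A} => E n (F.1 : Set (Cp X ℝ)))
      (fun F => hopen n _) hcov (by
        rintro ⟨F1, h1⟩ ⟨F2, h2⟩
        have hmono : ∀ F F' : Set (Cp X ℝ), F ⊆ F' → E n F ⊆ E n F' := by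
          intro F F' h
          exact union_subset_union_right _ (union_subset_union_right _
            (biUnion_subset_biUnion_left h))
        refine ⟨⟨F1 ∪ F2, by rw [Finset.coe_union]; exact union_subset h1 h2⟩, ?_, ?_⟩
        · apply hmono; show (F1 : Set (Cp X ℝ)) ⊆ ((F1 ∪ F2 : Finset (Cp X ℝ)) : Set (Cp X ℝ))
          rw [Finset.coe_union]; exact subset_union_left
        · apply hmono; show (F2 : Set (Cp X ℝ)) ⊆ ((F1 ∪ F2 : Finset (Cp X ℝ)) : Set (Cp X ℝ))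
          rw [Finset.coe_union]; exact subset_union_right)
    obtain ⟨U, V, hU, hV, hKU, hKV, hUV⟩ :=
      generalized_tube_lemma (hK x) (hK x') (hopen n _) hF
    obtain ⟨k, hk1, hk2⟩ := hN x U hU hKU
    obtain ⟨k', hk1', hk2'⟩ := hN x' V hV hKV
    exact ⟨F.1, F.2, k, k', hk1 (hKx x), hk1' (hKx x'), (prod_mono hk2 hk2').trans hUV⟩
  have key2 : ∀ q : ℕ × ℕ × ℕ, ∃ F : Finset (Cp X ℝ), (F : Set (Cp X ℝ)) ⊆ A ∧
      ((∃ F' : Finset (Cp X ℝ), (F' : Set (Cp X ℝ)) ⊆ A ∧ N q.2.1 ×ˢ N q.2.2 ⊆ E q.1 F') →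
        N q.2.1 ×ˢ N q.2.2 ⊆ E q.1 F) := by
    intro q
    by_cases h : ∃ F' : Finset (Cp X ℝ), (F' : Set (Cp X ℝ)) ⊆ A ∧
        N q.2.1 ×ˢ N q.2.2 ⊆ E q.1 F'
    · obtain ⟨F', h1, h2⟩ := h
      exact ⟨F', h1, fun _ => h2⟩
    · exact ⟨∅, by simp, fun h' => absurd h' h⟩
  choose F hF1 hF2 using key2
  refine ⟨⋃ q, (F q : Set (Cp X ℝ)), iUnion_subset hF1,
    countable_iUnion fun q => (F q).countable_toSet, ?_⟩
  intro x x' hπx hgx
  by_contra hne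
  have hd : 0 < dist (y.1 x) (y.1 x') := dist_pos.2 hne
  obtain ⟨n, hn⟩ := exists_nat_one_div_lt hd
  obtain ⟨F', hF', k, k', hk, hk', hsub⟩ := key n x x'
  have h1 := hF2 (n, k, k') ⟨F', hF', hsub⟩ (show (x, x') ∈ N k ×ˢ N k' from ⟨hk, hk'⟩)
  rcases h1 with h1 | h1 | h1
  · exact absurd h1 (not_lt.2 hn.le)
  · exact h1 hπx
  · obtain ⟨g, hg, hne'⟩ := mem_iUnion₂.1 h1
    exact hne' (hgx g (mem_iUnion.2 ⟨_, hg⟩))

/-- Key lemma: along a well-ordered increasing chain of families only countably many levels can be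
seen by an open set `W`. -/
theorem countable_of_open [HereditarilyLindelofSpace H] {K : X → Set X}
    (hK : ∀ x, IsCompact (K x))
    (hN : ∀ x, ∀ U : Set X, IsOpen U → K x ⊆ U → ∃ k, K x ⊆ N k ∧ N k ⊆ U)
    {π : X → H} {ζ : H → H → ℝ} (hπ : Continuous π) (hζ : ∀ h, Continuous (ζ h))
    (hζ0 : ∀ h h', ζ h h' = 0 ↔ h' = h)
    {ι : Type*} [LinearOrder ι] [WellFoundedLT ι] (G : ι → Set (Cp X ℝ))
    {A : Set (Cp X ℝ)} (hA : A.Countable)
    {W : Set X} (hW : IsOpen W) (T : Set ι) (p x : ι → X)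
    (hx : ∀ a ∈ T, x a ∉ W) (hxK : ∀ a ∈ T, x a ∈ K (p a))
    (hsep : ∀ a ∈ T, ∀ x', x' ∉ W → π x' = π (p a) → ∃ g ∈ A, g.1 x' ≠ g.1 (p a))
    (hz : ∀ a ∈ T, (⟨fun x => ζ (π (p a)) (π x), (hζ _).comp hπ⟩ : Cp X ℝ) ∈ G a)
    (hxA : ∀ a ∈ T, ∀ g ∈ A, g.1 (x a) = g.1 (p a))
    (hxp : ∀ a ∈ T, ∀ b, b < a → ∀ g ∈ G b, g.1 (x a) = g.1 (p a)) : T.Countable := by
  classical
  -- the separating data
  have h1 : ∀ a ∈ T, ∃ (d : ℕ × List (A × ℚ × ℚ)) (ε : ℝ), 0 < ε ∧ K (p a) ⊆ N d.1 ∧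
      (∀ e ∈ d.2, (e.2.1 : ℝ) < e.1.1.1 (p a) ∧ e.1.1.1 (p a) < (e.2.2 : ℝ)) ∧
      (∀ x' ∈ N d.1, x' ∉ W → (∀ e ∈ d.2, (e.2.1 : ℝ) < e.1.1.1 x' ∧ e.1.1.1 x' < (e.2.2 : ℝ)) →
        ε < |ζ (π (p a)) (π x')|) := by
    intro a ha
    have hC : IsCompact (K (p a) ∩ Wᶜ) := (hK _).inter_right hW.isClosed_compl
    -- index: either a rational epsilon or a function with two rationals
    have h2 : ∀ x' ∈ K (p a) ∩ Wᶜ, ∃ c : ℝ × List (A × ℚ × ℚ), 0 < c.1 ∧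
        (∀ e ∈ c.2, (e.2.1 : ℝ) < e.1.1.1 (p a) ∧ e.1.1.1 (p a) < (e.2.2 : ℝ)) ∧
        (c.1 < |ζ (π (p a)) (π x')| ∨
          ∃ e ∈ c.2, e.1.1.1 x' < (e.2.1 : ℝ) ∨ (e.2.2 : ℝ) < e.1.1.1 x') := by
      rintro x' ⟨hx'K, hx'W⟩
      by_cases hπx : π x' = π (p a)
      · obtain ⟨g, hg, hne⟩ := hsep a ha x' hx'W hπx
        rcases lt_or_gt_of_ne hne with hlt | hlt
        · obtain ⟨q, hq1, hq2⟩ := exists_rat_btwn hlt
          obtain ⟨q', hq'⟩ := exists_rat_gt (g.1 (p a))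
          refine ⟨(1, [(⟨g, hg⟩, q, q')]), one_pos, ?_, Or.inr ⟨_, List.mem_singleton.2 rfl,
            Or.inl hq1⟩⟩
          intro e he
          rw [List.mem_singleton.1 he]
          exact ⟨hq2, hq'⟩
        · obtain ⟨q, hq1, hq2⟩ := exists_rat_btwn hlt
          obtain ⟨q', hq'⟩ := exists_rat_lt (g.1 (p a))
          refine ⟨(1, [(⟨g, hg⟩, q', q)]), one_pos, ?_, Or.inr ⟨_, List.mem_singleton.2 rfl,
            Or.inr hq2⟩⟩
          intro e he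
          rw [List.mem_singleton.1 he]
          exact ⟨hq', hq1⟩
      · have h3 : 0 < |ζ (π (p a)) (π x')| := abs_pos.2 fun h => hπx ((hζ0 _ _).1 h)
        exact ⟨(|ζ (π (p a)) (π x')| / 2, []), by positivity, by simp, Or.inl (by
          show |ζ (π (p a)) (π x')| / 2 < |ζ (π (p a)) (π x')|
          linarith)⟩
    choose! c hc1 hc2 hc3 using h2
    have hopenc : ∀ c : ℝ × List (A × ℚ × ℚ), IsOpen {x' : X | c.1 < |ζ (π (p a)) (π x')| ∨
        ∃ e ∈ c.2, e.1.1.1 x' < (e.2.1 : ℝ) ∨ (e.2.2 : ℝ) < e.1.1.1 x'} := by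
      intro c
      have h4 : {x' : X | c.1 < |ζ (π (p a)) (π x')| ∨
          ∃ e ∈ c.2, e.1.1.1 x' < (e.2.1 : ℝ) ∨ (e.2.2 : ℝ) < e.1.1.1 x'} =
          {x' : X | c.1 < |ζ (π (p a)) (π x')|} ∪ ⋃ e ∈ {e | e ∈ c.2},
            {x' : X | e.1.1.1 x' < (e.2.1 : ℝ) ∨ (e.2.2 : ℝ) < e.1.1.1 x'} := by
        ext x'
        simp
      rw [h4]
      refine (isOpen_lt continuous_const ((hζ _).comp hπ).abs).union
        (isOpen_biUnion fun e _ => ?_)
      exact (isOpen_lt e.1.1.2 continuous_const).union (isOpen_lt continuous_const e.1.1.2)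
    obtain ⟨t, ht, htc⟩ := hC.elim_nhds_subcover
      (fun w => {x' : X | (c w).1 < |ζ (π (p a)) (π x')| ∨
        ∃ e ∈ (c w).2, e.1.1.1 x' < (e.2.1 : ℝ) ∨ (e.2.2 : ℝ) < e.1.1.1 x'})
      (fun w hw => (hopenc (c w)).mem_nhds (hc3 w hw))
    obtain ⟨k, hk1, hk2⟩ := hN (p a) (W ∪ ⋃ w ∈ t, {x' : X | (c w).1 < |ζ (π (p a)) (π x')| ∨
        ∃ e ∈ (c w).2, e.1.1.1 x' < (e.2.1 : ℝ) ∨ (e.2.2 : ℝ) < e.1.1.1 x'})
      (hW.union (isOpen_biUnion fun w _ => hopenc (c w))) (by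
        intro x' hx'
        by_cases h : x' ∈ W
        · exact Or.inl h
        · exact Or.inr (htc ⟨hx', h⟩))
    -- a common epsilon
    obtain ⟨ε, hε, hεt⟩ : ∃ ε : ℝ, 0 < ε ∧ ∀ w ∈ t, ε ≤ (c w).1 := by
      rcases t.eq_empty_or_nonempty with h | h
      · exact ⟨1, one_pos, by rw [h]; simp⟩
      · obtain ⟨w0, hw0, hmin⟩ := t.exists_min_image (fun w => (c w).1) h
        exact ⟨(c w0).1, hc1 w0 (ht w0 hw0), hmin⟩
    refine ⟨(k, t.toList.flatMap fun w => (c w).2), ε, hε, hk1, ?_, ?_⟩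
    · intro e he
      obtain ⟨w, hw, hew⟩ := List.mem_flatMap.1 he
      exact hc2 w (ht w (Finset.mem_toList.1 hw)) e hew
    · intro x' hx'N hx'W hx'e
      rcases hk2 hx'N with h | h
      · exact absurd h hx'W
      · obtain ⟨w, hw, hxw⟩ := mem_iUnion₂.1 h
        rcases hxw with h5 | ⟨e, he, h5⟩
        · exact (hεt w hw).trans_lt h5
        · exfalso
          have h6 := hx'e e (List.mem_flatMap.2 ⟨w, Finset.mem_toList.2 hw, he⟩)
          rcases h5 with h5 | h5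
          · exact absurd h6.1 (not_lt.2 h5.le)
          · exact absurd h6.2 (not_lt.2 h5.le)
  choose! d ε hε hd1 hd2 hd3 using h1
  have : Countable A := hA.to_subtype
  have hcount : T = ⋃ δ : ℕ × List (A × ℚ × ℚ), {a ∈ T | d a = δ} := by
    ext a
    simp
  rw [hcount]
  refine countable_iUnion fun δ => ?_
  refine right_separated (H := H) _ (fun a => π (p a))
    (fun a => {h | |ζ (π (p a)) h| < ε a}) ?_ ?_ ?_
  · rintro a -
    exact isOpen_lt (hζ _).abs continuous_const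
  · rintro a ⟨ha, -⟩
    show |ζ (π (p a)) (π (p a))| < ε a
    rw [(hζ0 _ _).2 rfl, abs_zero]
    exact hε a ha
  · rintro a ⟨ha, hda⟩ b ⟨hb, hdb⟩ hab hlt
    have hlt' : |ζ (π (p a)) (π (p b))| < ε a := hlt
    have hdd : d a = d b := hda.trans hdb.symm
    have h5 : ε a < |ζ (π (p a)) (π (x b))| := by
      refine hd3 a ha (x b) ?_ (hx b hb) ?_
      · rw [hdd]
        exact hd1 b hb (hxK b hb)
      · rw [hdd]
        intro e he
        rw [hxA b hb e.1.1 e.1.2]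
        exact hd2 b hb e he
    have h6 : ζ (π (p a)) (π (x b)) = ζ (π (p a)) (π (p b)) := hxp b hb a hab _ (hz a ha)
    rw [h6] at h5
    exact absurd h5 (not_lt.2 hlt'.le)

/-- Each continuous function sees only countably many levels of the chain. -/
theorem countable_seen [T2Space H] [HereditarilyLindelofSpace H]
    [TopologicalSpace.MetrizableSpace M] {K : X → Set X}
    (hK : ∀ x, IsCompact (K x)) (hKx : ∀ x, x ∈ K x)
    (hN : ∀ x, ∀ U : Set X, IsOpen U → K x ⊆ U → ∃ k, K x ⊆ N k ∧ N k ⊆ U)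
    {O : ℕ → Set M} (hO : TopologicalSpace.IsTopologicalBasis (range O))
    {π : X → H} {ζ : H → H → ℝ} (hπ : Continuous π) (hζ : ∀ h, Continuous (ζ h))
    (hζ0 : ∀ h h', ζ h h' = 0 ↔ h' = h)
    {A : Set (Cp X ℝ)}
    (hsep : ∀ x x', π x = π x' → (∀ g ∈ A, g.1 x = g.1 x') → x = x')
    {ι : Type*} [LinearOrder ι] [WellFoundedLT ι] (G : ι → Set (Cp X ℝ))
    (hlev : ∀ g ∈ A, {a : ι | ∀ b, b < a → g ∉ G b}.Countable) (y : Cp X M) :
    {a : ι | ∃ p x : X, x ∈ K p ∧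
      (⟨fun x => ζ (π p) (π x), (hζ _).comp hπ⟩ : Cp X ℝ) ∈ G a ∧
      (∀ b, b < a → ∀ g ∈ G b, g.1 x = g.1 p) ∧ y.1 x ≠ y.1 p}.Countable := by
  classical
  obtain ⟨A', hA'A, hA'c, hA'⟩ := exists_countable_dep hK hKx hN hπ hsep y
  have key : ∀ n : ℕ, {a : ι | ∃ p x : X, x ∈ K p ∧
      (⟨fun x => ζ (π p) (π x), (hζ _).comp hπ⟩ : Cp X ℝ) ∈ G a ∧
      (∀ g ∈ A', g.1 x = g.1 p) ∧
      (∀ b, b < a → ∀ g ∈ G b, g.1 x = g.1 p) ∧ y.1 p ∈ O n ∧ y.1 x ∉ O n}.Countable := by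
    intro n
    rcases isEmpty_or_nonempty X with hX | hX
    · refine countable_empty.mono ?_
      rintro a ⟨p, _⟩
      exact (hX.false p).elim
    have h1 : ∀ a ∈ {a : ι | ∃ p x : X, x ∈ K p ∧
      (⟨fun x => ζ (π p) (π x), (hζ _).comp hπ⟩ : Cp X ℝ) ∈ G a ∧
      (∀ g ∈ A', g.1 x = g.1 p) ∧
      (∀ b, b < a → ∀ g ∈ G b, g.1 x = g.1 p) ∧ y.1 p ∈ O n ∧ y.1 x ∉ O n},
      ∃ q : X × X, q.2 ∈ K q.1 ∧
      (⟨fun x => ζ (π q.1) (π x), (hζ _).comp hπ⟩ : Cp X ℝ) ∈ G a ∧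
      (∀ g ∈ A', g.1 q.2 = g.1 q.1) ∧
      (∀ b, b < a → ∀ g ∈ G b, g.1 q.2 = g.1 q.1) ∧ y.1 q.1 ∈ O n ∧ y.1 q.2 ∉ O n := by
      rintro a ⟨p, x, h⟩
      exact ⟨(p, x), h⟩
    choose! q hq1 hq2 hq3 hq4 hq5 hq6 using h1
    refine countable_of_open hK hN hπ hζ hζ0 G hA'c
      ((hO.isOpen (mem_range_self n)).preimage y.2) _ (fun a => (q a).1) (fun a => (q a).2)
      hq6 hq1 ?_ hq2 hq3 hq4
    intro a ha x' hx' hπx
    by_contra hcon
    push Not at hcon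
    apply hx'
    show y.1 x' ∈ O n
    rw [hA' x' (q a).1 hπx hcon]
    exact hq5 a ha
  have h0 : (⋃ g ∈ A', {a : ι | ∀ b, b < a → g ∉ G b}).Countable :=
    hA'c.biUnion fun g hg => hlev g (hA'A hg)
  refine (h0.union (countable_iUnion key)).mono ?_
  rintro a ⟨p, x, h1, h2, h3, h4⟩
  by_cases hc : ∀ g ∈ A', ∃ b, b < a ∧ g ∈ G b
  · right
    obtain ⟨U, V, hU, hV, hpU, hxV, hUV⟩ := t2_separation h4.symm
    obtain ⟨_, ⟨n, rfl⟩, h5, h6⟩ := hO.exists_subset_of_mem_open hpU hU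
    refine mem_iUnion.2 ⟨n, p, x, h1, h2, ?_, h3, h5, fun h7 => ?_⟩
    · intro g hg
      obtain ⟨b, hb, hgb⟩ := hc g hg
      exact h3 b hb g hgb
    · exact Set.disjoint_left.1 hUV (h6 h7) hxV
  · left
    push Not at hc
    obtain ⟨g, hg, hgb⟩ := hc
    exact mem_iUnion₂.2 ⟨g, hg, hgb⟩

end


section

variable {X : Type u} [TopologicalSpace X] {H : Type v} [TopologicalSpace H]
  {M : Type w} [TopologicalSpace M] {N : ℕ → Set X}

theorem main [T2Space H] [HereditarilyLindelofSpace H]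
    [TopologicalSpace.MetrizableSpace M] {K : X → Set X}
    (hK : ∀ x, IsCompact (K x)) (hKx : ∀ x, x ∈ K x)
    (hN : ∀ x, ∀ U : Set X, IsOpen U → K x ⊆ U → ∃ k, K x ⊆ N k ∧ N k ⊆ U)
    {O : ℕ → Set M} (hO : TopologicalSpace.IsTopologicalBasis (range O))
    {π : X → H} {ζ : H → H → ℝ} (hπ : Continuous π) (hζ : ∀ h, Continuous (ζ h))
    (hζ0 : ∀ h h', ζ h h' = 0 ↔ h' = h)
    {A : Set (Cp X ℝ)} (hA1 : #A ≤ ℵ₁)
    (hsep : ∀ x x', π x = π x' → (∀ g ∈ A, g.1 x = g.1 x') → x = x')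
    (𝒰 : Set (List (X × ℕ))) (κ : Cardinal.{u}) :
    ∀ G : Set (Cp X ℝ), #G = κ →
      Closed N 𝒰 (fun p => ⟨fun x => ζ (π p) (π x), (hζ _).comp hπ⟩) G → (#G ≤ ℵ₀ ∨ A ⊆ G) →
      ∃ 𝒱 : Set (Set (Cp X M)), (∀ V ∈ 𝒱, IsOpen V) ∧ (∀ V ∈ 𝒱, ∃ u ∈ Psi N 𝒰 G, V ⊆ B O u) ∧
        (∀ u ∈ Psi N 𝒰 G, B O u ⊆ ⋃₀ 𝒱) ∧ ∀ y : Cp X M, {V ∈ 𝒱 | y ∈ V}.Countable := by
  classical
  have hOo : ∀ n, IsOpen (O n) := fun n => hO.isOpen (mem_range_self n)
  set zz : X → Cp X ℝ := fun p => ⟨fun x => ζ (π p) (π x), (hζ _).comp hπ⟩ with hzz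
  induction κ using Cardinal.lt_wf.induction with
  | h κ ih =>
  intro G hGκ hG hAG
  rcases le_or_gt #G ℵ₀ with hc | hc
  · have hP : (Psi N 𝒰 G).Countable := by
      rw [← le_aleph0_iff_set_countable]
      exact (mk_Psi_le 𝒰 G).trans (max_le le_rfl hc)
    refine ⟨B O '' Psi N 𝒰 G, ?_, ?_, ?_, ?_⟩
    · rintro V ⟨u, -, rfl⟩
      exact isOpen_B hOo u
    · rintro V ⟨u, hu, rfl⟩
      exact ⟨u, hu, Subset.rfl⟩
    · intro u hu y hy
      exact ⟨B O u, ⟨u, hu, rfl⟩, hy⟩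
    · intro y
      exact (hP.image (B O)).mono fun V hV => hV.1
  have hAG' : A ⊆ G := hAG.resolve_left (not_le.2 hc)
  obtain ⟨ι, ⟨e⟩⟩ : ∃ ι : Type u, Nonempty (ι ≃ G) := ⟨G, ⟨Equiv.refl _⟩⟩
  have hιG : #ι = #G := mk_congr e
  obtain ⟨lo, wf, hord⟩ := exists_ord_eq_type_lt ι
  have hne : Nonempty ι := by
    rw [← mk_ne_zero_iff, hιG]
    exact (aleph0_pos.trans hc).ne'
  have hIic : ∀ a : ι, #(Iic a : Set ι) < #G := by
    intro a
    calc #(Iic a : Set ι) ≤ #(Iio a : Set ι) + 1 := by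
            have : (Iic a : Set ι) = insert a (Iio a) := by
              rw [Iio_insert]
            rw [this]
            exact mk_insert_le
        _ < #G := by
            rw [← hιG] at hc ⊢
            exact add_lt_of_lt hc.le (mk_Iio_lt a hord) (one_lt_aleph0.trans hc)
  -- the constant part of the chain
  obtain ⟨A₀, hA₀G, hA₀, hA₀'⟩ : ∃ A₀ : Set (Cp X ℝ), A₀ ⊆ G ∧ #A₀ < #G ∧
      (#G ≤ ℵ₁ ∨ A ⊆ A₀) := by
    rcases le_or_gt #G ℵ₁ with h | h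
    · exact ⟨∅, empty_subset _, by rw [mk_eq_zero]; exact aleph0_pos.trans hc, Or.inl h⟩
    · exact ⟨A, hAG', hA1.trans_lt h, Or.inr Subset.rfl⟩
  -- the chain of closed families
  let L : ι → Set (Cp X ℝ) := fun a => A₀ ∪ (fun i => (e i).1) '' (Iic a : Set ι)
  let H' : ι → Set (Cp X ℝ) := fun a => clo N 𝒰 zz (L a)
  have hL : ∀ a b : ι, a ≤ b → L a ⊆ L b := fun a b hab =>
    union_subset_union_right _ (image_mono (Iic_subset_Iic.2 hab))
  have hH : ∀ a b : ι, a ≤ b → H' a ⊆ H' b := fun a b hab => clo_mono _ _ (hL a b hab)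
  have hLG : ∀ a, L a ⊆ G := by
    rintro a g (hg | ⟨g, -, rfl⟩)
    · exact hA₀G hg
    · exact (e g).2
  have hHG : ∀ a, H' a ⊆ G := fun a => clo_subset (hLG a) hG
  have hHc : ∀ a, Closed N 𝒰 zz (H' a) := fun a => clo_closed _ _ _
  have hcard : ∀ a, #(H' a) < κ := by
    intro a
    have h1 : #(L a) < #G := by
      calc #(L a) ≤ #A₀ + #((fun i => (e i).1) '' (Iic a : Set ι)) := mk_union_le _ _
        _ ≤ #A₀ + #(Iic a : Set ι) := add_le_add le_rfl mk_image_le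
        _ < #G := add_lt_of_lt hc.le hA₀ (hIic a)
    rw [← hGκ]
    exact (mk_clo_le 𝒰 zz (L a)).trans_lt (max_lt hc h1)
  have hHA : ∀ a, #(H' a) ≤ ℵ₀ ∨ A ⊆ H' a := by
    intro a
    rcases hA₀' with h | h
    · left
      have h1 : #(H' a) < ℵ₁ := ((hcard a).trans_eq hGκ.symm).trans_le h
      rw [← succ_aleph0] at h1
      exact Order.lt_succ_iff.1 h1
    · exact Or.inr ((h.trans subset_union_left).trans (subset_clo _ _ _))
  have hlev : ∀ g ∈ A, {a : ι | ∀ b, b < a → g ∉ H' b}.Countable := by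
    intro g hg
    rcases hA₀' with h | h
    · have h1 : {a : ι | ∀ b, b < a → g ∉ H' b} ⊆ Iic (e.symm ⟨g, hAG' hg⟩) := by
        intro a ha
        by_contra hcon
        rw [mem_Iic, not_le] at hcon
        refine ha _ hcon (subset_clo _ _ _ (Or.inr ⟨e.symm ⟨g, hAG' hg⟩, mem_Iic.2 le_rfl, ?_⟩))
        simp
      refine Set.Countable.mono h1 ?_
      rw [← le_aleph0_iff_set_countable]
      have h2 : #(Iic (e.symm ⟨g, hAG' hg⟩) : Set ι) < ℵ₁ := (hIic _).trans_le h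
      rw [← succ_aleph0] at h2
      exact Order.lt_succ_iff.1 h2
    · refine Set.Subsingleton.countable ?_
      intro a ha b hb
      rcases lt_trichotomy a b with h1 | h1 | h1
      · exact absurd (subset_clo _ _ _ (Or.inl (h hg))) (hb a h1)
      · exact h1
      · exact absurd (subset_clo _ _ _ (Or.inl (h hg))) (ha b h1)
  have hIH := fun a => ih #(H' a) (hcard a) (H' a) rfl (hHc a) (hHA a)
  choose 𝒱 hV1 hV2 hV3 hV4 using hIH
  choose! w hw1 hw2 using hV2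
  let S : ι → X × ℕ → Set (Cp X M) := fun a t =>
    {y | ∃ x, (x ∈ K t.1 ∧ ∀ b, b < a → ∀ g ∈ H' b, g.1 x = g.1 t.1) ∧ y.1 x ≠ y.1 t.1}
  have hS : ∀ a t, IsOpen (S a t) := by
    intro a t
    have h1 : S a t = ⋃ x ∈ {x | x ∈ K t.1 ∧ ∀ b, b < a → ∀ g ∈ H' b, g.1 x = g.1 t.1},
        {y : Cp X M | y.1 x ≠ y.1 t.1} := by
      ext y
      constructor
      · rintro ⟨x, h1, h2⟩
        exact mem_iUnion₂.2 ⟨x, h1, h2⟩
      · intro h
        obtain ⟨x, h1, h2⟩ := mem_iUnion₂.1 h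
        exact ⟨x, h1, h2⟩
    rw [h1]
    exact isOpen_biUnion fun x _ => isOpen_ne_fun (continuous_eval x) (continuous_eval t.1)
  refine ⟨(B O '' Psi N 𝒰 ∅) ∪ {V' | ∃ a, ∃ V ∈ 𝒱 a, ∃ t ∈ w a V, V' = V ∩ S a t},
    ?_, ?_, ?_, ?_⟩
  · rintro V' (⟨u, -, rfl⟩ | ⟨a, V, hV, t, -, rfl⟩)
    · exact isOpen_B hOo u
    · exact (hV1 a V hV).inter (hS a t)
  · rintro V' (⟨u, hu, rfl⟩ | ⟨a, V, hV, t, -, rfl⟩)
    · exact ⟨u, Psi_mono 𝒰 (empty_subset G) hu, Subset.rfl⟩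
    · exact ⟨w a V, Psi_mono 𝒰 (hHG a) (hw1 a V hV), inter_subset_left.trans (hw2 a V hV)⟩
  · intro u hu f hf
    by_cases hf0 : ∃ u' ∈ Psi N 𝒰 (∅ : Set (Cp X ℝ)), f ∈ B O u'
    · obtain ⟨u', hu', hfu'⟩ := hf0
      exact ⟨B O u', Or.inl ⟨u', hu', rfl⟩, hfu'⟩
    have h1 : {a : ι | ∃ u' ∈ Psi N 𝒰 (H' a), f ∈ B O u'}.Nonempty := by
      obtain ⟨s, hs, hus⟩ := Psi_fin hu
      have hdir : Directed (fun x1 x2 => x1 ⊆ x2) L := by
        intro a b
        exact ⟨max a b, hL _ _ (le_max_left _ _), hL _ _ (le_max_right _ _)⟩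
      obtain ⟨a, ha⟩ := hdir.exists_mem_subset_of_finset_subset_biUnion (s := s) (by
        intro g hg
        refine mem_iUnion.2 ⟨e.symm ⟨g, hs hg⟩, Or.inr ⟨e.symm ⟨g, hs hg⟩, mem_Iic.2 le_rfl, ?_⟩⟩
        simp)
      exact ⟨a, u, Psi_mono 𝒰 (ha.trans (subset_clo _ _ _)) hus, hf⟩
    obtain ⟨a, ⟨u', hu', hfu'⟩, hmin⟩ := WellFounded.has_min (wellFounded_lt (α := ι)) _ h1
    obtain ⟨V, hV, hfV⟩ := hV3 a u' hu' hfu'
    have h2 : ∀ u'' ∈ Psi N 𝒰 (⋃ b ∈ {b | b < a}, H' b), f ∉ B O u'' := by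
      intro u'' hu'' hfu''
      obtain ⟨s, hs, hus⟩ := Psi_fin hu''
      rcases {b : ι | b < a}.eq_empty_or_nonempty with h | h
      · rw [h] at hs
        simp only [mem_empty_iff_false, iUnion_of_empty, iUnion_empty] at hs
        exact hf0 ⟨u'', Psi_mono 𝒰 hs hus, hfu''⟩
      · have hdir : DirectedOn (fun i j => H' i ⊆ H' j) {b : ι | b < a} := by
          intro b hb c hc'
          exact ⟨max b c, max_lt hb hc', hH _ _ (le_max_left _ _), hH _ _ (le_max_right _ _)⟩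
        obtain ⟨b, hb, hsb⟩ := hdir.exists_mem_subset_of_finset_subset_biUnion h hs
        exact hmin b ⟨u'', Psi_mono 𝒰 hsb hus, hfu''⟩ hb
    obtain ⟨t, ht, x, hxK, hx, hne'⟩ :=
      reflection hK hKx hN hOo (Psi_sub 𝒰 _ (hw1 a V hV)) (hw2 a V hV hfV) h2
    refine ⟨V ∩ S a t, Or.inr ⟨a, V, hV, t, ht, rfl⟩, hfV, x, ⟨hxK, ?_⟩, hne'⟩
    intro b hb g hg
    exact hx g (mem_iUnion₂.2 ⟨b, hb, hg⟩)
  · intro y
    have h0 : (B (M := M) O '' Psi N 𝒰 (∅ : Set (Cp X ℝ))).Countable := by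
      apply Countable.image
      rw [← le_aleph0_iff_set_countable]
      refine (mk_Psi_le 𝒰 ∅).trans (max_le le_rfl ?_)
      simp
    have hT := countable_seen hK hKx hN hO hπ hζ hζ0 hsep H' hlev y
    refine (h0.union (hT.biUnion fun a _ => (hV4 a y).biUnion fun V _ =>
      ((List.finite_toSet (w a V)).image fun t => V ∩ S a t).countable)).mono ?_
    rintro V' ⟨(hV' | ⟨a, V, hV, t, ht, rfl⟩), hy⟩
    · exact Or.inl hV'
    · refine Or.inr (mem_iUnion₂.2 ⟨a, ?_, mem_iUnion₂.2 ⟨V, ⟨hV, hy.1⟩, ⟨t, ht, rfl⟩⟩⟩)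
      obtain ⟨x, hx, hne'⟩ := hy.2
      exact ⟨t.1, x, hx.1, hHc a _ (hw1 a V hV) t ht, hx.2, hne'⟩

/-- Every family of open subsets of `C_p(X, M)` has a point-countable open refinement with the
same union. -/
theorem open_family [T35Space H] [HereditarilyLindelofSpace H]
    [TopologicalSpace.MetrizableSpace M] [SecondCountableTopology M] (hX : LindelofSigma X)
    {π : X → H} (hπ : Continuous π) {A : Set (Cp X ℝ)} (hA1 : #A ≤ ℵ₁)
    (hsep : ∀ x x', π x = π x' → (∀ g ∈ A, g.1 x = g.1 x') → x = x')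
    (𝒪 : Set (Set (Cp X M))) (h𝒪 : ∀ O ∈ 𝒪, IsOpen O) :
    ∃ 𝒱 : Set (Set (Cp X M)), (∀ V ∈ 𝒱, IsOpen V) ∧ (∀ V ∈ 𝒱, ∃ O ∈ 𝒪, V ⊆ O) ∧
      ⋃₀ 𝒪 ⊆ ⋃₀ 𝒱 ∧ ∀ y : Cp X M, {V ∈ 𝒱 | y ∈ V}.Countable := by
  classical
  obtain ⟨𝒦, 𝒩, hK, hcov, hNc, hKN⟩ := hX
  have hex : ∀ x : X, ∃ K ∈ 𝒦, x ∈ K := by
    intro x
    have : x ∈ ⋃₀ 𝒦 := by rw [hcov]; trivial
    exact this
  choose K hK1 hKx using hex
  obtain ⟨N, hN⟩ : ∃ N : ℕ → Set X, ∀ S ∈ 𝒩, ∃ k, N k = S := by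
    rcases 𝒩.eq_empty_or_nonempty with h | h
    · exact ⟨fun _ => ∅, by rw [h]; simp⟩
    · obtain ⟨N, hN⟩ := hNc.exists_eq_range h
      refine ⟨N, fun S hS => ?_⟩
      rw [hN] at hS
      exact hS
  have hN' : ∀ x, ∀ U : Set X, IsOpen U → K x ⊆ U → ∃ k, K x ⊆ N k ∧ N k ⊆ U := by
    intro x U hU hKU
    obtain ⟨S, hS, h1, h2⟩ := hKN (K x) (hK1 x) U hU hKU
    obtain ⟨k, rfl⟩ := hN S hS
    exact ⟨k, h1, h2⟩
  obtain ⟨O, hO⟩ : ∃ O : ℕ → Set M, TopologicalSpace.IsTopologicalBasis (range O) := by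
    have h1 := TopologicalSpace.isBasis_countableBasis M
    rcases (TopologicalSpace.countableBasis M).eq_empty_or_nonempty with h | h
    · refine ⟨fun _ => univ, ?_⟩
      rw [h] at h1
      have hM : IsEmpty M := by
        rw [← univ_eq_empty_iff, ← h1.sUnion_eq, sUnion_empty]
      exact TopologicalSpace.isTopologicalBasis_of_isOpen_of_nhds
        (by rintro _ ⟨_, rfl⟩; exact isOpen_univ) (fun a => (hM.false a).elim)
    · obtain ⟨O, hO⟩ := (TopologicalSpace.countable_countableBasis M).exists_eq_range h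
      exact ⟨O, hO ▸ h1⟩
  choose ζ hζ hζ0 using fun h : H => exists_zero h
  obtain ⟨𝒱, h1, h2, h3, h4⟩ := main (N := N) (fun x => hK _ (hK1 x)) hKx hN' hO hπ hζ hζ0 hA1 hsep
    {u : List (X × ℕ) | ∃ W ∈ 𝒪, B O u ⊆ W}
    #(Set.univ : Set (Cp X ℝ)) Set.univ rfl (fun _ _ _ _ => mem_univ _) (Or.inr (subset_univ _))
  refine ⟨𝒱, h1, ?_, ?_, h4⟩
  · intro V hV
    obtain ⟨u, hu, hVu⟩ := h2 V hV
    obtain ⟨W, hW, huW⟩ := Psi_sub _ _ hu
    exact ⟨W, hW, hVu.trans huW⟩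
  · rintro f ⟨W, hW, hfW⟩
    obtain ⟨u, hfu, huW⟩ := exists_B hO (h𝒪 W hW) hfW
    by_contra hcon
    obtain ⟨t, _, x, _, hx, hne⟩ := reflection (N := N) (fun x => hK _ (hK1 x)) hKx hN'
      (fun n => hO.isOpen (mem_range_self n)) (𝒰 := {u : List (X × ℕ) | ∃ W ∈ 𝒪, B O u ⊆ W})
      (G := Set.univ) ⟨W, hW, huW⟩ hfu (fun u' hu' hf' => hcon (h3 u' hu' hf'))
    apply hne
    have hxt : π x = π t.1 → f.1 x = f.1 t.1 := fun h => by
      rw [hsep x t.1 h (fun g _ => hx g (mem_univ _))]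
    apply hxt
    have h5 := hx ⟨fun x' => ζ (π t.1) (π x'), (hζ _).comp hπ⟩ (mem_univ _)
    have h6 : ζ (π t.1) (π x) = ζ (π t.1) (π t.1) := h5
    rw [(hζ0 _ _).2 rfl] at h6
    exact (hζ0 _ _).1 h6

theorem subspace_metalindelof [T35Space H] [HereditarilyLindelofSpace H]
    [TopologicalSpace.MetrizableSpace M] [SecondCountableTopology M] (hX : LindelofSigma X)
    {π : X → H} (hπ : Continuous π) {A : Set (Cp X ℝ)} (hA1 : #A ≤ ℵ₁)
    (hsep : ∀ x x', π x = π x' → (∀ g ∈ A, g.1 x = g.1 x') → x = x')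
    (Z : Set (Cp X M)) : Metalindelof Z := by
  intro 𝒰 hU hcov
  obtain ⟨𝒱, h1, h2, h3, h4⟩ := open_family hX hπ hA1 hsep {O : Set (Cp X M) | IsOpen O ∧
    ∃ U ∈ 𝒰, (Subtype.val ⁻¹' O : Set Z) ⊆ U} (fun O hO => hO.1)
  refine ⟨(fun V => (Subtype.val ⁻¹' V : Set Z)) '' 𝒱, ?_, ?_, ?_, ?_⟩
  · rintro _ ⟨V, hV, rfl⟩
    exact (h1 V hV).preimage continuous_subtype_val
  · rw [eq_univ_iff_forall]
    intro z
    have hz : z ∈ ⋃₀ 𝒰 := by rw [hcov]; exact mem_univ z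
    obtain ⟨U, hUm, hzU⟩ := hz
    obtain ⟨O, hO, rfl⟩ := isOpen_induced_iff.1 (hU U hUm)
    obtain ⟨V, hV, hzV⟩ := h3 ⟨O, ⟨hO, _, hUm, Subset.rfl⟩, hzU⟩
    exact ⟨_, ⟨V, hV, rfl⟩, hzV⟩
  · rintro _ ⟨V, hV, rfl⟩
    obtain ⟨O, ⟨_, U, hUm, hOU⟩, hVO⟩ := h2 V hV
    exact ⟨U, hUm, (preimage_mono hVO).trans hOU⟩
  · intro z
    refine ((h4 z.1).image fun V => (Subtype.val ⁻¹' V : Set Z)).mono ?_
    rintro _ ⟨⟨V, hV, rfl⟩, hz⟩
    exact ⟨V, ⟨hV, hz⟩, rfl⟩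

theorem metalindelof_of_univ {Z : Type u} [TopologicalSpace Z]
    (h : Metalindelof (Set.univ : Set Z)) : Metalindelof Z := by
  intro 𝒰 hU hcov
  obtain ⟨𝒱, h1, h2, h3, h4⟩ := h ((fun U => (Subtype.val ⁻¹' U : Set (Set.univ : Set Z))) '' 𝒰)
    (by
      rintro _ ⟨U, hUm, rfl⟩
      exact (hU U hUm).preimage continuous_subtype_val)
    (by
      rw [eq_univ_iff_forall]
      intro z
      have hz : z.1 ∈ ⋃₀ 𝒰 := by rw [hcov]; exact mem_univ _
      obtain ⟨U, hUm, hzU⟩ := hz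
      exact ⟨_, ⟨U, hUm, rfl⟩, hzU⟩)
  refine ⟨(fun V => Subtype.val '' V) '' 𝒱, ?_, ?_, ?_, ?_⟩
  · rintro _ ⟨V, hV, rfl⟩
    exact isOpen_univ.isOpenMap_subtype_val _ (h1 V hV)
  · rw [eq_univ_iff_forall]
    intro z
    have hz : (⟨z, mem_univ z⟩ : (Set.univ : Set Z)) ∈ ⋃₀ 𝒱 := by rw [h2]; exact mem_univ _
    obtain ⟨V, hV, hzV⟩ := hz
    exact ⟨_, ⟨V, hV, rfl⟩, _, hzV, rfl⟩
  · rintro _ ⟨V, hV, rfl⟩
    obtain ⟨_, ⟨U, hUm, rfl⟩, hVU⟩ := h3 V hV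
    refine ⟨U, hUm, ?_⟩
    rintro _ ⟨z, hz, rfl⟩
    exact hVU hz
  · intro z
    refine ((h4 ⟨z, mem_univ z⟩).image fun V => Subtype.val '' V).mono ?_
    rintro _ ⟨⟨V, hV, rfl⟩, ⟨z', hz', hzz⟩⟩
    refine ⟨V, ⟨hV, ?_⟩, rfl⟩
    have : z' = ⟨z, mem_univ z⟩ := Subtype.ext hzz
    rw [← this]
    exact hz'

end


section

/-- Perfectly normal compact spaces are hereditarily Lindelof. -/
theorem hereditarilyLindelof_of_perfectlyNormal (X : Type u) [TopologicalSpace X] [CompactSpace X]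
    [PerfectlyNormalSpace X] : HereditarilyLindelofSpace X := by
  refine HereditarilyLindelofSpace.of_forall_isOpen fun s hs => ?_
  have h1 : IsGδ sᶜ := hs.isClosed_compl.isGδ
  obtain ⟨U, hU, hUe⟩ := h1.eq_iInter_nat
  have h2 : s = ⋃ n, (U n)ᶜ := by
    rw [← compl_iInter, ← hUe, compl_compl]
  rw [h2]
  exact isLindelof_iUnion fun n => (hU n).isClosed_compl.isCompact.isLindelof

/-- Compact spaces are Lindelof Sigma-spaces. -/
theorem lindelofSigma_of_compact (X : Type u) [TopologicalSpace X] [CompactSpace X] :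
    LindelofSigma X := by
  refine ⟨{Set.univ}, {Set.univ}, ?_, by simp, countable_singleton _, ?_⟩
  · rintro K hK
    rw [mem_singleton_iff.1 hK]
    exact isCompact_univ
  · intro K hK U _ hKU
    rw [mem_singleton_iff.1 hK] at hKU ⊢
    exact ⟨Set.univ, mem_singleton _, Subset.rfl, hKU⟩

end

/-- **Main theorem.** (1) Let `X` be a Lindelof Sigma-space, `π` a continuous map from `X` to a
completely regular hereditarily Lindelof `T₀`-space `H` and `A` a set of at most `ℵ₁` continuous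
real functions on `X` such that `π` and `A` together separate the points of `X`. Then for every
separable metrizable space `M` every subspace of `C_p(X, M)` is metalindelof. (2) In particular
this holds if `X` itself is a hereditarily Lindelof completely regular Sigma-space. (3) It holds
for `X × Y` if `X` is compact and perfectly normal and `Y` is a compact space on which at most
`ℵ₁` continuous real functions separate the points. (4) For every perfectly normal compact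
Hausdorff space `X` the space `C_p(X)` and all of its subspaces are metalindelof. -/
theorem result :
    (∀ (X : Type u) [TopologicalSpace X] (H : Type v) [TopologicalSpace H] [T35Space H]
      [HereditarilyLindelofSpace H] (π : X → H) (A : Set (Cp X ℝ))
      (M : Type w) [TopologicalSpace M] [TopologicalSpace.MetrizableSpace M]
      [SecondCountableTopology M],
      LindelofSigma X → Continuous π → #A ≤ ℵ₁ →
      (∀ x x', π x = π x' → (∀ g ∈ A, g.1 x = g.1 x') → x = x') →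
      ∀ Z : Set (Cp X M), Metalindelof Z) ∧
    (∀ (X : Type u) [TopologicalSpace X] [T35Space X] [HereditarilyLindelofSpace X]
      (M : Type w) [TopologicalSpace M] [TopologicalSpace.MetrizableSpace M]
      [SecondCountableTopology M], LindelofSigma X → ∀ Z : Set (Cp X M), Metalindelof Z) ∧
    (∀ (X : Type u) [TopologicalSpace X] [CompactSpace X] [T2Space X] [PerfectlyNormalSpace X]
      (Y : Type u) [TopologicalSpace Y] [CompactSpace Y] (A : Set (Cp Y ℝ))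
      (M : Type w) [TopologicalSpace M] [TopologicalSpace.MetrizableSpace M]
      [SecondCountableTopology M], #A ≤ ℵ₁ →
      (∀ y y', (∀ g ∈ A, g.1 y = g.1 y') → y = y') →
      ∀ Z : Set (Cp (X × Y) M), Metalindelof Z) ∧
    (∀ (X : Type u) [TopologicalSpace X] [CompactSpace X] [T2Space X] [PerfectlyNormalSpace X],
      Metalindelof (Cp X ℝ) ∧ ∀ Z : Set (Cp X ℝ), Metalindelof Z) := by
  refine ⟨?_, ?_, ?_, ?_⟩
  · intro X _ H _ _ _ π A M _ _ _ hX hπ hA hsep Z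
    exact subspace_metalindelof hX hπ hA hsep Z
  · intro X _ _ _ M _ _ _ hX Z
    exact subspace_metalindelof hX continuous_id (A := ∅) (by simp) (fun x x' h _ => h) Z
  · intro X _ _ _ _ Y _ _ A M _ _ _ hA hsep Z
    have := hereditarilyLindelof_of_perfectlyNormal X
    refine subspace_metalindelof (lindelofSigma_of_compact (X × Y)) (H := X) continuous_fst
      (A := (fun g : Cp Y ℝ => (⟨fun q : X × Y => g.1 q.2, g.2.comp continuous_snd⟩ :
        Cp (X × Y) ℝ)) '' A) (mk_image_le.trans hA) ?_ Z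
    rintro ⟨x, y⟩ ⟨x', y'⟩ hx hg
    have h1 : x = x' := hx
    have h2 : y = y' := hsep y y' fun g hgA => hg _ ⟨g, hgA, rfl⟩
    rw [h1, h2]
  · intro X _ _ _ _
    have := hereditarilyLindelof_of_perfectlyNormal X
    have h : ∀ Z : Set (Cp X ℝ), Metalindelof Z := fun Z =>
      subspace_metalindelof (lindelofSigma_of_compact X) (H := X) continuous_id (A := ∅)
        (by simp) (fun x x' h _ => h) Z
    exact ⟨metalindelof_of_univ (h Set.univ), h⟩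

end Pool.Agent.Results.MP_3bf391_gt.HereditarilyLindelofSigma
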